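import Pool.Agent.Helper62_ZRT.XGA

/-!
# ZRT, row XHA (helper37): second derivative of `½|y|²` along a lifted geodesic
-/

set_option autoImplicit false

noncomputable section

open scoped ContDiff Topology RealInnerProductSpace
open Set

namespace Pool.Agent.ZRT.H37

open Pool.Agent.RF Pool.Agent.MVS Pool.Agent.ZRT Pool.Agent.ZRT.H62

variable {G : E5 → Bil E5} {ex : E5 × E5 → E5}

/-- the covariant derivative of the Jacobi field at time one -/
theorem djf_one (hE : IsExp G ex) {m : E5} (hm : m ∈ Om (Fin 5)) (v w : E5) :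
    DJf G ex m v w 1 = fderiv ℝ (fderiv ℝ (fun u : E5 => ex (m, u))) v v w + dE ex m v w
      + chris G (ex (m, v)) (dE ex m v v) (dE ex m v w) := by
  have h3 := hasD_dE hE hm (hasD_line v 1) (hasD_line w 1)
  have h4 : deriv (Jf ex m v w) 1 =
      fderiv ℝ (fderiv ℝ (fun u : E5 => ex (m, u))) v v w + dE ex m v w := by
    have h5 := h3.deriv
    rw [one_smul, one_smul] at h5
    exact h5
  unfold DJf Tf
  rw [h4]
  unfold Jf
  rw [one_smul, one_smul]

theorem xha : XhaStatement := by
  intro G ex hG hE m hm I y hI hy hgeo s hs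
  have hxm : ex (m, y s) ∈ Om (Fin 5) := hE.mem m hm (y s)
  have hyd : ∀ r ∈ I, HasDerivAt y (deriv y r) r := fun r hr =>
    ((hy.contDiffAt (hI.mem_nhds hr)).differentiableAt (by simp)).hasDerivAt
  have hcd : ∀ r ∈ I, HasDerivAt (fun r => ex (m, y r)) (dE ex m (y r) (deriv y r)) r :=
    fun r hr => hasD_ex hE hm (hyd r hr)
  have hsI : I ∈ 𝓝 s := hI.mem_nhds hs
  -- the velocity of the image curve
  have hyy : DifferentiableAt ℝ (deriv y) s := by
    have h1 : ContDiffOn ℝ ∞ (deriv y) I := hy.deriv_of_isOpen hI (by simp)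
    exact (h1.contDiffAt hsI).differentiableAt (by simp)
  have hvel := hasD_dE hE hm (hyd s hs) hyy.hasDerivAt
  have hev : (fun r => deriv (fun r => ex (m, y r)) r) =ᶠ[𝓝 s]
      fun r => dE ex m (y r) (deriv y r) := by
    filter_upwards [hsI] with r hr
    exact (hcd r hr).deriv
  have hacc : HasDerivAt (fun r => dE ex m (y r) (deriv y r))
      (- chris G (ex (m, y s)) (dE ex m (y s) (deriv y s)) (dE ex m (y s) (deriv y s))) s := by
    have h1 := hgeo s hs
    rw [(hcd s hs).deriv] at h1
    have h2 : deriv (deriv (fun r => ex (m, y r))) s =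
        deriv (fun r => dE ex m (y r) (deriv y r)) s := hev.deriv_eq
    rw [h2] at h1
    rw [← h1]
    exact hvel.differentiableAt.hasDerivAt
  have hrad := hasD_dE hE hm (hyd s hs) (hyd s hs)
  have h3 := mco (Fin 5) G (Om (Fin 5)) hG.metric _ _ _ _ _ _ s hxm (hcd s hs) hrad hacc
  rw [neg_add_cancel, map_zero, add_zero, sym_dE hE hm, hG.metric.chris_symm hxm,
    ← djf_one hE hm (y s) (deriv y s)] at h3
  have h4 : (fun r => G m (y r) (deriv y r)) = fun r =>
      G (ex (m, y r)) (dE ex m (y r) (y r)) (dE ex m (y r) (deriv y r)) := by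
    funext r
    exact (xga G ex hG hE m hm (y r) (deriv y r)).symm
  rw [h4]
  have h5 : Jf ex m (y s) (deriv y s) 1 = dE ex m (y s) (deriv y s) := by
    unfold Jf
    rw [one_smul, one_smul]
  rw [h5]
  exact h3

end Pool.Agent.ZRT.H37
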